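import Mathlib
import Pool.Agent.Lib.helper12.Jet

namespace Pool.Agent.Results.MP_1a410c_mp.Pair

open MvPolynomial Pool.Agent.Lib.helper12

/-- polynomial functions of the fields -/
abbrev Fn := MvPolynomial (Fin 3) ℝ

/-- the operator `D (g^{ij} D + c^{ij}_r u^r_x) D` -/
noncomputable def op {A : Type} [CommRing A] [Algebra ℝ A] (J : Jet 3 A) (g : Matrix (Fin 3) (Fin 3) Fn)
    (c : Fin 3 → Fin 3 → Fin 3 → Fn) (ψ : Fin 3 → A) (i : Fin 3) : A :=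
  J.D (∑ j, (aeval (J.x · 0) (g i j) * J.D (J.D (ψ j)) +
    (∑ r, aeval (J.x · 0) (c i j r) * J.x r 1) * J.D (ψ j)))

noncomputable def gg (ν : ℝ) : Matrix (Fin 3) (Fin 3) Fn :=
  !![0, 0, 1; 0, 1, -X 0; 1, -X 0, 2 * X 1 + X 0 ^ 2 + C ν]

noncomputable def cc : Fin 3 → Fin 3 → Fin 3 → Fn :=
  ![0, ![0, 0, ![-1, 0, 0]], ![0, 0, ![X 0, 1, 0]]]

section
variable {A : Type} [CommRing A] [Algebra ℝ A] (J : Jet 3 A)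

noncomputable def P (μ ν : A) (ψ : Fin 3 → A) : Fin 3 → A :=
  ![μ * J.T (J.T (J.T (ψ 2))),
    μ * J.T (J.T (J.T (ψ 1)) - J.x 0 0 * J.T (J.T (ψ 2)) - J.x 0 1 * J.T (ψ 2)),
    μ * J.T (J.T (J.T (ψ 0)) - J.x 0 0 * J.T (J.T (ψ 1)) + (2 * J.x 1 0 + J.x 0 0 * J.x 0 0) *
      J.T (J.T (ψ 2)) + (J.x 1 1 + J.x 0 0 * J.x 0 1) * J.T (ψ 2)) + ν * J.T (J.T (J.T (ψ 2)))]

noncomputable def Q (μ : A) (K ψ : Fin 3 → A) : Fin 3 → A :=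
  ![0, μ * J.T (-(K 0 * J.T (J.T (ψ 2))) - J.T (K 0) * J.T (ψ 2)),
    μ * J.T (-(K 0 * J.T (J.T (ψ 1))) + (2 * K 1 + 2 * J.x 0 0 * K 0) * J.T (J.T (ψ 2)) +
      (J.T (K 1) + K 0 * J.x 0 1 + J.x 0 0 * J.T (K 0)) * J.T (ψ 2))]

lemma two (D : Derivation ℝ A A) : D 2 = 0 := D.map_natCast 2

lemma num (D : Derivation ℝ A A) (n : ℕ) [n.AtLeastTwo] : D ofNat(n) = 0 := D.map_natCast n

lemma main (μ ν : A) (hμ : ∀ D : Derivation ℝ A A, D μ = 0) (hν : ∀ D : Derivation ℝ A A, D ν = 0) :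
    J.Poisson (P J μ ν) := by
  refine J.poisson_of _ (Q J μ) (fun a b => ⟨μ * ((1) * a 0 * J.T (J.T (b 2)) + (-1) * a 1 * J.T (J.T (b 2)) * J.x 0 0 + (2) * a 2 * J.T (J.T (b 2)) * J.x 1 0 + (1) * a 2 * J.T (J.T (b 2)) * J.x 0 0 * J.x 0 0 + (1) * a 1 * J.T (J.T (b 1)) + (-1) * a 2 * J.T (J.T (b 1)) * J.x 0 0 + (1) * a 2 * J.T (J.T (b 0)) + (1) * J.T (J.T (a 2)) * b 0 + (-1) * J.T (J.T (a 2)) * b 1 * J.x 0 0 + (2) * J.T (J.T (a 2)) * b 2 * J.x 1 0 + (1) * J.T (J.T (a 2)) * b 2 * J.x 0 0 * J.x 0 0 + (1) * J.T (J.T (a 1)) * b 1 + (-1) * J.T (J.T (a 1)) * b 2 * J.x 0 0 + (1) * J.T (J.T (a 0)) * b 2 + (1) * a 2 * J.T (b 2) * J.x 1 1 + (1) * J.T (a 2) * b 2 * J.x 1 1 + (-1) * a 1 * J.T (b 2) * J.x 0 1 + (1) * a 2 * J.T (b 2) * J.x 0 0 * J.x 0 1 + (-1) * J.T (a 2) * b 1 * J.x 0 1 + (1) * J.T (a 2) * b 2 * J.x 0 0 * J.x 0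 1 + (-1) * J.T (a 0) * J.T (b 2) + (1) * J.T (a 1) * J.T (b 2) * J.x 0 0 + (-2) * J.T (a 2) * J.T (b 2) * J.x 1 0 + (-1) * J.T (a 2) * J.T (b 2) * J.x 0 0 * J.x 0 0 + (-1) * J.T (a 1) * J.T (b 1) + (1) * J.T (a 2) * J.T (b 1) * J.x 0 0 + (-1) * J.T (a 2) * J.T (b 0)) + ν * ((1) * a 2 * J.T (J.T (b 2)) + (1) * J.T (J.T (a 2)) * b 2 + (-1) * J.T (a 2) * J.T (b 2)), ?_⟩) (fun K b i => ?_)
    fun a b c => ⟨μ * μ * ((-1) * a 1 * J.T (b 2) * J.T (J.T (J.T (J.T (c 2)))) + (1) * a 2 * J.T (b 2) * J.T (J.T (J.T (J.T (c 1)))) + (-1) * J.T (a 2) * J.T (J.T (J.T (J.T (b 2)))) * c 1 + (1) * J.T (a 2) * J.T (J.T (J.T (J.T (b 1)))) * c 2 + (-1) * J.T (J.T (J.T (J.T (a 2)))) * b 1 * J.T (c 2) + (1) * J.T (J.T (J.T (J.T (a 1)))) * b 2 * J.T (c 2) + (-1) * a 2 * J.T (b 2) * J.T (c 2) * J.x 0 3 + (-1) * J.T (a 2) * b 2 * J.T (c 2)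 * J.x 0 3 + (-1) * J.T (a 2) * J.T (b 2) * c 2 * J.x 0 3 + (-1) * a 1 * J.T (J.T (b 2)) * J.T (J.T (J.T (c 2))) + (-1) * a 2 * J.T (J.T (b 1)) * J.T (J.T (J.T (c 2))) + (-2) * a 2 * J.T (b 2) * J.T (J.T (J.T (c 2))) * J.x 0 1 + (1) * J.T (a 1) * J.T (b 2) * J.T (J.T (J.T (c 2))) + (2) * a 2 * J.T (J.T (b 2)) * J.T (J.T (J.T (c 1))) + (-1) * J.T (a 2) * J.T (b 2) * J.T (J.T (J.T (c 1))) + (-1) * J.T (J.T (a 2)) * J.T (J.T (J.T (b 2))) * c 1 + (-1) * J.T (J.T (a 1)) * J.T (J.T (J.T (b 2))) * c 2 + (-2) * J.T (a 2) * J.T (J.T (J.T (b 2))) * c 2 * J.x 0 1 + (1) * J.T (a 2) * J.T (J.T (J.T (b 2))) * J.T (c 1) + (2) * J.T (J.T (a 2)) * J.T (J.T (J.T (b 1))) * c 2 + (-1) * J.T (a 2) * J.T (J.T (J.T (b 1))) * J.T (c 2) + (-1) * J.T (J.T (J.T (a 2))) * b 1 * J.T (J.T (c 2)) + (-1) * J.T (J.T (J.T (a 2))) * b 2 * J.T (J.T (c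 1)) + (-2) * J.T (J.T (J.T (a 2))) * b 2 * J.T (c 2) * J.x 0 1 + (1) * J.T (J.T (J.T (a 2))) * J.T (b 1) * J.T (c 2) + (2) * J.T (J.T (J.T (a 1))) * b 2 * J.T (J.T (c 2)) + (-1) * J.T (J.T (J.T (a 1))) * J.T (b 2) * J.T (c 2) + (-2) * a 2 * J.T (J.T (b 2)) * J.T (c 2) * J.x 0 2 + (-3) * a 2 * J.T (b 2) * J.T (J.T (c 2)) * J.x 0 2 + (-2) * J.T (a 2) * b 2 * J.T (J.T (c 2)) * J.x 0 2 + (-3) * J.T (J.T (a 2)) * b 2 * J.T (c 2) * J.x 0 2 + (-2) * J.T (J.T (a 2)) * J.T (b 2) * c 2 * J.x 0 2 + (-3) * J.T (a 2) * J.T (J.T (b 2)) * c 2 * J.x 0 2 + (3) * J.T (a 2) * J.T (b 2) * J.T (c 2) * J.x 0 2 + (-4) * a 2 * J.T (J.T (b 2)) * J.T (J.T (c 2)) * J.x 0 1 + (-4) * J.T (J.T (a 2)) * b 2 * J.T (J.T (c 2)) * J.x 0 1 + (1) * J.T (a 2) * J.T (J.T (b 1)) * J.T (J.T (c 2)) + (2) * J.T (a 2) * J.T (b 2) * J.T (J.T (c 2)) * J.x 0 1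 + (-1) * J.T (J.T (a 1)) * J.T (b 2) * J.T (J.T (c 2)) + (-1) * J.T (a 2) * J.T (J.T (b 2)) * J.T (J.T (c 1)) + (1) * J.T (J.T (a 2)) * J.T (b 2) * J.T (J.T (c 1)) + (-4) * J.T (J.T (a 2)) * J.T (J.T (b 2)) * c 2 * J.x 0 1 + (1) * J.T (J.T (a 1)) * J.T (J.T (b 2)) * J.T (c 2) + (2) * J.T (a 2) * J.T (J.T (b 2)) * J.T (c 2) * J.x 0 1 + (-1) * J.T (J.T (a 2)) * J.T (J.T (b 1)) * J.T (c 2) + (2) * J.T (J.T (a 2)) * J.T (b 2) * J.T (c 2) * J.x 0 1), ?_⟩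
  · simp only [P, Fin.sum_univ_three, Matrix.cons_val, map_add, map_sub, map_neg, neg_mul, one_mul,
      Derivation.leibniz, smul_eq_mul, hμ, hν, two, Jet.T_x, Nat.reduceAdd]
    ring
  · fin_cases i <;>
      simp [P, Q, Jet.E_T, hμ, hν, two] <;> ring
  · simp only [P, Q, Fin.sum_univ_three, Matrix.cons_val, map_add, map_sub, map_neg, neg_mul, one_mul,
      Derivation.leibniz, smul_eq_mul, hμ, hν, num, Jet.T_x, Nat.reduceAdd, map_zero, mul_zero, add_zero]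
    ring

end

theorem result : ∃ (g₁ g₂ : Matrix (Fin 3) (Fin 3) Fn) (c₁ c₂ : Fin 3 → Fin 3 → Fin 3 → Fn),
    IsUnit g₁.det ∧ IsUnit g₂.det ∧ c₁ ≠ 0 ∧ c₂ ≠ 0 ∧
    (∀ s t : ℝ, s • g₁ = t • g₂ → s = 0 ∧ t = 0) ∧
    ∀ (A : Type) [CommRing A] [Algebra ℝ A] (J : Jet 3 A) (s t : ℝ),
      J.Poisson (s • op J g₁ c₁ + t • op J g₂ c₂) := by
  have d : ∀ ν, IsUnit (gg ν).det := fun ν => by simp [gg, Matrix.det_fin_three]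
  have n : cc ≠ 0 := fun h => by simpa [cc] using congrFun (congrFun (congrFun h 2) 2) 1
  refine ⟨gg 0, gg 1, cc, cc, d _, d _, n, n, fun s t h => ?_, fun A _ _ J s t => ?_⟩
  · have a := congrArg constantCoeff (congrFun (congrFun h 1) 1)
    have b := congrArg constantCoeff (congrFun (congrFun h 2) 2)
    simp [gg] at a b
    exact ⟨a.trans b.symm, b.symm⟩
  · have := main J (algebraMap ℝ A (s + t)) (algebraMap ℝ A t) (fun D => D.map_algebraMap _)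
      fun D => D.map_algebraMap _
    rw [show s • op J (gg 0) cc + t • op J (gg 1) cc = _ from funext fun ψ => funext fun i => ?_]
    · exact this
    fin_cases i <;>
      simp [op, P, gg, cc, Jet.D_eq, Fin.sum_univ_three, Algebra.smul_def, two, map_ofNat] <;> ring

end Pool.Agent.Results.MP_1a410c_mp.Pair
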